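import Pool.Agent.H242.GX.Stm5

/-!
# GX5-LIM1: boundedness for the differential inequality
-/

open Set Filter Topology
open scoped ContDiff

namespace Pool.Agent.H196.GX5

open Pool.Agent.H242.GX

section
variable {y y₁ κ κ₁ : ℝ → ℝ} {δ M : ℝ}

/-- part (A) -/
theorem partA (h : YD y y₁ κ κ₁ δ M) {t₁ : ℝ} (ht₁ : 0 < t₁) (htδ : t₁ < δ) (hMt : M * t₁ ≤ 1 / 8)
    (hy1 : ∀ t, 0 < t → t ≤ t₁ → y t ≤ 1) {τ S : ℝ} (hτ : 0 < τ) (hτ1 : τ ≤ t₁)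
    (hS : ∀ u ∈ Icc τ t₁, y₁ u ^ 2 ≤ S) : ∀ u ∈ Icc τ t₁, |κ u| ≤ 2 * |κ t₁| + S / 4 + 1 := by
  have hsub : ∀ u ∈ Icc τ t₁, 0 < u ∧ u < δ := fun u hu =>
    ⟨lt_of_lt_of_le hτ hu.1, lt_of_le_of_lt hu.2 htδ⟩
  have hcont : ContinuousOn (fun u => |κ u|) (Icc τ t₁) := fun u hu =>
    ((h.dk u (hsub u hu).1 (hsub u hu).2).continuousAt.abs).continuousWithinAt
  obtain ⟨u₀, hu₀, hmax⟩ := isCompact_Icc.exists_isMaxOn (nonempty_Icc.2 hτ1) hcont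
  have hQ : ∀ u ∈ Icc τ t₁, |κ u| ≤ |κ u₀| := fun u hu => hmax hu
  have hM0 := h.M0
  have hS0 : 0 ≤ S := (sq_nonneg _).trans (hS τ (left_mem_Icc.2 hτ1))
  have hC : ∀ u ∈ Icc τ t₁, ‖κ₁ u‖ ≤ M * (|κ u₀| + S + 1) := by
    intro u hu
    obtain ⟨h1, h2⟩ := hsub u hu
    rw [Real.norm_eq_abs]
    refine (h.bd u h1 h2).trans (mul_le_mul_of_nonneg_left ?_ hM0)
    have h3 := hQ u hu
    have h4 := hS u hu
    have h5 : y u ^ 2 ≤ 1 := by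
      have h6 := hy1 u h1 hu.2
      have h7 := h.ypos u h1 h2
      nlinarith
    linarith
  have hlip := Convex.norm_image_sub_le_of_norm_hasDerivWithin_le (f := κ) (f' := κ₁)
    (s := Icc τ t₁) (C := M * (|κ u₀| + S + 1))
    (fun u hu => (h.dk u (hsub u hu).1 (hsub u hu).2).hasDerivWithinAt) hC (convex_Icc τ t₁)
    (right_mem_Icc.2 hτ1) hu₀
  rw [Real.norm_eq_abs, Real.norm_eq_abs] at hlip
  have h1 : |u₀ - t₁| ≤ t₁ := by
    rw [abs_le]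
    constructor
    · linarith [(hsub u₀ hu₀).1]
    · linarith [hu₀.2]
  have hQ0 : 0 ≤ |κ u₀| := abs_nonneg _
  have h2 : M * (|κ u₀| + S + 1) * |u₀ - t₁| ≤ (|κ u₀| + S + 1) / 8 := by
    have h3 : 0 ≤ M * (|κ u₀| + S + 1) := by positivity
    calc M * (|κ u₀| + S + 1) * |u₀ - t₁| ≤ M * (|κ u₀| + S + 1) * t₁ :=
          mul_le_mul_of_nonneg_left h1 h3
      _ = M * t₁ * (|κ u₀| + S + 1) := by ring
      _ ≤ 1 / 8 * (|κ u₀| + S + 1) := mul_le_mul_of_nonneg_right hMt (by positivity)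
      _ = (|κ u₀| + S + 1) / 8 := by ring
  have h3 : |κ u₀| ≤ |κ t₁| + |κ u₀ - κ t₁| := by
    have h4 := abs_add_le (κ t₁) (κ u₀ - κ t₁)
    have h5 : κ t₁ + (κ u₀ - κ t₁) = κ u₀ := by ring
    rw [h5] at h4
    exact h4
  intro u hu
  have h4 := hQ u hu
  have h5 : 0 ≤ |κ t₁| := abs_nonneg _
  linarith

theorem hasDerivAt_e (h : YD y y₁ κ κ₁ δ M) {t : ℝ} (ht : 0 < t) (htδ : t < δ) :
    HasDerivAt (fun u => y₁ u ^ 2) (2 * y₁ t * ((6 * y₁ t ^ 2 - κ t) / (2 * y t))) t := by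
  have h1 := (h.dy1 t ht htδ).pow 2
  have h2 : (2 : ℕ) * y₁ t ^ (2 - 1) * ((6 * y₁ t ^ 2 - κ t) / (2 * y t)) =
      2 * y₁ t * ((6 * y₁ t ^ 2 - κ t) / (2 * y t)) := by
    norm_num
  rw [h2] at h1
  exact h1

/-- part (B), the maximum is at the left end -/
theorem partB1 (h : YD y y₁ κ κ₁ δ M) {t₁ : ℝ} (ht₁ : 0 < t₁) (htδ : t₁ < δ) (hMt : M * t₁ ≤ 1 / 8)
    (hy1 : ∀ t, 0 < t → t ≤ t₁ → y t ≤ 1) {τ : ℝ} (hτ : 0 < τ) (hτ1 : τ < t₁)
    (he : y₁ t₁ ^ 2 + 2 * |κ t₁| + 2 < y₁ τ ^ 2) :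
    (∀ u ∈ Icc τ t₁, y₁ u ^ 2 ≤ y₁ τ ^ 2) ∧ y₁ τ < 0 := by
  have hsub : ∀ u ∈ Icc τ t₁, 0 < u ∧ u < δ := fun u hu =>
    ⟨lt_of_lt_of_le hτ hu.1, lt_of_le_of_lt hu.2 htδ⟩
  have hcont : ContinuousOn (fun u => y₁ u ^ 2) (Icc τ t₁) := fun u hu =>
    (hasDerivAt_e h (hsub u hu).1 (hsub u hu).2).continuousAt.continuousWithinAt
  obtain ⟨s, hs, hmax⟩ := isCompact_Icc.exists_isMaxOn (nonempty_Icc.2 hτ1.le) hcont
  have hS : ∀ u ∈ Icc τ t₁, y₁ u ^ 2 ≤ y₁ s ^ 2 := fun u hu => hmax hu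
  have hA := partA h ht₁ htδ hMt hy1 hτ hτ1.le hS
  have hκ0 : 0 ≤ |κ t₁| := abs_nonneg _
  have he1 : 0 ≤ y₁ t₁ ^ 2 := sq_nonneg _
  have hsτ := hS τ (left_mem_Icc.2 hτ1.le)
  have hst : s < t₁ := by
    refine lt_of_le_of_ne hs.2 ?_
    rintro rfl
    linarith
  have hκs : ∀ u ∈ Icc τ t₁, κ u < 2 * y₁ s ^ 2 := by
    intro u hu
    have h1 := hA u hu
    have h2 := le_abs_self (κ u)
    linarith
  have hseq : s = τ := by
    by_contra hne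
    have hτs : τ < s := lt_of_le_of_ne hs.1 (Ne.symm hne)
    obtain ⟨hs0, hsδ⟩ := hsub s hs
    have hloc : IsLocalMax (fun u => y₁ u ^ 2) s := by
      filter_upwards [Icc_mem_nhds hτs hst] with u hu
      exact hS u hu
    have h1 := hloc.hasDerivAt_eq_zero (hasDerivAt_e h hs0 hsδ)
    have hy := h.ypos s hs0 hsδ
    have hy₁ : y₁ s ≠ 0 := by
      intro h0
      rw [h0] at hsτ
      have : (0 : ℝ) ^ 2 = 0 := by norm_num
      rw [this] at hsτ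
      linarith
    have h2 : 6 * y₁ s ^ 2 - κ s = 0 := by
      rcases mul_eq_zero.1 h1 with h3 | h3
      · exact absurd h3 (mul_ne_zero two_ne_zero hy₁)
      · rcases div_eq_zero_iff.1 h3 with h4 | h4
        · exact h4
        · exact absurd h4 (by positivity)
    have h3 := hκs s hs
    nlinarith
  subst hseq
  refine ⟨hS, ?_⟩
  obtain ⟨hs0, hsδ⟩ := hsub s hs
  have hy := h.ypos s hs0 hsδ
  have hder := hasDerivAt_e h hs0 hsδ
  have hE : 2 * y₁ s * ((6 * y₁ s ^ 2 - κ s) / (2 * y s)) ≤ 0 := by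
    have hss : Ioi s ⊆ ({s}ᶜ : Set ℝ) := fun u hu => ne_of_gt hu
    have h1 := (hasDerivAt_iff_tendsto_slope.1 hder).mono_left (nhdsWithin_mono s hss)
    refine le_of_tendsto h1 ?_
    filter_upwards [Ioo_mem_nhdsGT hst] with u hu
    rw [slope_def_field]
    have h2 := hS u ⟨hu.1.le, hu.2.le⟩
    exact div_nonpos_of_nonpos_of_nonneg (by linarith) (by linarith [hu.1])
  have h1 := hκs s hs
  have h2 : 0 < (6 * y₁ s ^ 2 - κ s) / (2 * y s) := by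
    apply div_pos
    · nlinarith [sq_nonneg (y₁ s)]
    · positivity
  by_contra hc
  push Not at hc
  have h3 : 0 < y₁ s := by
    refine lt_of_le_of_ne hc fun h0 => ?_
    rw [← h0] at he
    have : (0 : ℝ) ^ 2 = 0 := by norm_num
    rw [this] at he
    linarith
  have h4 : 0 < 2 * y₁ s * ((6 * y₁ s ^ 2 - κ s) / (2 * y s)) := by positivity
  linarith

/-- part (B) -/
theorem partB (h : YD y y₁ κ κ₁ δ M) {t₁ : ℝ} (ht₁ : 0 < t₁) (htδ : t₁ < δ) (hMt : M * t₁ ≤ 1 / 8)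
    (hy1 : ∀ t, 0 < t → t ≤ t₁ → y t ≤ 1) : ∀ τ, 0 < τ → τ ≤ t₁ →
    y₁ τ ^ 2 ≤ y₁ t₁ ^ 2 + 2 * |κ t₁| + 2 := by
  intro τ hτ hτ1
  by_contra hc
  push Not at hc
  have hκ0 : 0 ≤ |κ t₁| := abs_nonneg _
  have hτ1' : τ < t₁ := by
    refine lt_of_le_of_ne hτ1 ?_
    rintro rfl
    linarith
  have hall : ∀ t, 0 < t → t ≤ τ → y₁ t₁ ^ 2 + 2 * |κ t₁| + 2 < y₁ t ^ 2 := by
    intro t₀ ht₀ ht₀τ
    by_contra hc0
    push Not at hc0
    have hsub : ∀ u ∈ Icc t₀ τ, 0 < u ∧ u < δ := fun u hu =>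
      ⟨lt_of_lt_of_le ht₀ hu.1, by linarith [hu.2]⟩
    have hcont : ContinuousOn (fun u => y₁ u ^ 2) (Icc t₀ τ) := fun u hu =>
      (hasDerivAt_e h (hsub u hu).1 (hsub u hu).2).continuousAt.continuousWithinAt
    have hA : IsCompact (Icc t₀ τ ∩ (fun u => y₁ u ^ 2) ⁻¹' Iic (y₁ t₁ ^ 2 + 2 * |κ t₁| + 2)) :=
      isCompact_Icc.of_isClosed_subset
        (hcont.preimage_isClosed_of_isClosed isClosed_Icc isClosed_Iic) inter_subset_left
    obtain ⟨u, ⟨huI, hue⟩, hu⟩ := hA.exists_isGreatest ⟨t₀, left_mem_Icc.2 ht₀τ, hc0⟩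
    have hue' : y₁ u ^ 2 ≤ y₁ t₁ ^ 2 + 2 * |κ t₁| + 2 := hue
    have huτ : u < τ := by
      refine lt_of_le_of_ne huI.2 ?_
      rintro rfl
      linarith
    have hv : ∀ v ∈ Ioo u τ, y₁ τ ^ 2 ≤ y₁ v ^ 2 := by
      intro v hv
      have hvI : v ∈ Icc t₀ τ := ⟨huI.1.trans hv.1.le, hv.2.le⟩
      have h1 : y₁ t₁ ^ 2 + 2 * |κ t₁| + 2 < y₁ v ^ 2 := by
        by_contra h2
        push Not at h2
        exact absurd (hu ⟨hvI, h2⟩) (not_le.2 hv.1)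
      exact (partB1 h ht₁ htδ hMt hy1 (hsub v hvI).1 (hv.2.trans hτ1') h1).1 τ
        ⟨hv.2.le, hτ1⟩
    obtain ⟨hu0, huδ⟩ := hsub u huI
    have hlim : Tendsto (fun v => y₁ v ^ 2) (𝓝[>] u) (𝓝 (y₁ u ^ 2)) :=
      (hasDerivAt_e h hu0 huδ).continuousAt.tendsto.mono_left nhdsWithin_le_nhds
    have h1 : y₁ τ ^ 2 ≤ y₁ u ^ 2 := by
      refine ge_of_tendsto hlim ?_
      filter_upwards [Ioo_mem_nhdsGT huτ] with v hv'
      exact hv v hv'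
    linarith
  have hneg : ∀ t, 0 < t → t ≤ τ → y₁ t < 0 := fun t ht htτ =>
    (partB1 h ht₁ htδ hMt hy1 ht (lt_of_le_of_lt htτ hτ1') (hall t ht htτ)).2
  have hanti : ∀ t ∈ Ioo 0 τ, y τ ≤ y t := by
    intro t ht
    obtain ⟨c, hc, hce⟩ := exists_hasDerivAt_eq_slope y y₁ ht.2
      (fun u hu => (h.dy u (lt_of_lt_of_le ht.1 hu.1)
        (by linarith [hu.2])).continuousAt.continuousWithinAt)
      (fun u hu => h.dy u (ht.1.trans hu.1) (by linarith [hu.2]))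
    have h1 := hneg c (ht.1.trans hc.1) hc.2.le
    rw [hce] at h1
    have h2 : 0 < τ - t := by linarith [ht.2]
    rw [div_lt_iff₀ h2, zero_mul] at h1
    linarith
  have h1 : y τ ≤ 0 := by
    refine ge_of_tendsto h.lim ?_
    filter_upwards [Ioo_mem_nhdsGT hτ] with t ht
    exact hanti t ht
  have h2 := h.ypos τ hτ (by linarith)
  linarith

end

theorem gx_LIM1 : S_LIM1 := by
  intro y y₁ κ κ₁ δ M h
  have hδ := h.pos
  have hM0 := h.M0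
  -- the choice of `t₁`
  have hev : ∀ᶠ t in 𝓝[>] (0 : ℝ), y t < 1 := h.lim.eventually (gt_mem_nhds zero_lt_one)
  obtain ⟨ε, hε, hεy⟩ := mem_nhdsGT_iff_exists_Ioo_subset.1 hev
  have hε0 : (0 : ℝ) < ε := hε
  obtain ⟨t₁, ht₁⟩ : ∃ t₁ : ℝ, t₁ = min (δ / 2) (min (ε / 2) (1 / (8 * (M + 1)))) := ⟨_, rfl⟩
  have h1 : t₁ ≤ δ / 2 := by rw [ht₁]; exact min_le_left _ _
  have h2 : t₁ ≤ ε / 2 := by rw [ht₁]; exact (min_le_right _ _).trans (min_le_left _ _)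
  have h3 : t₁ ≤ 1 / (8 * (M + 1)) := by
    rw [ht₁]
    exact (min_le_right _ _).trans (min_le_right _ _)
  have h0 : 0 < t₁ := by
    rw [ht₁]
    exact lt_min (by linarith) (lt_min (by linarith) (by positivity))
  have htδ : t₁ < δ := by linarith
  have hMt : M * t₁ ≤ 1 / 8 := by
    calc M * t₁ ≤ (M + 1) * (1 / (8 * (M + 1))) := mul_le_mul (by linarith) h3 h0.le (by linarith)
      _ = 1 / 8 := by field_simp
  have hy1 : ∀ t, 0 < t → t ≤ t₁ → y t ≤ 1 := by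
    intro t ht htt
    have h4 : t ∈ Ioo 0 ε := ⟨ht, by linarith⟩
    exact (hεy h4).le
  -- the bounds
  obtain ⟨B₀, hB₀⟩ : ∃ B₀ : ℝ, B₀ = y₁ t₁ ^ 2 + 2 * |κ t₁| + 2 := ⟨_, rfl⟩
  have hκ0 : 0 ≤ |κ t₁| := abs_nonneg _
  have hB₀0 : 0 < B₀ := by
    rw [hB₀]
    positivity
  have hB := partB h h0 htδ hMt hy1
  rw [← hB₀] at hB
  have hκb : ∀ t, 0 < t → t ≤ t₁ → |κ t| ≤ 2 * |κ t₁| + B₀ / 4 + 1 := by
    intro t ht htt
    exact partA h h0 htδ hMt hy1 ht htt (S := B₀)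
      (fun u hu => hB u (lt_of_lt_of_le ht hu.1) hu.2) t (left_mem_Icc.2 htt)
  obtain ⟨B₁, hB₁⟩ : ∃ B₁ : ℝ, B₁ = M * (2 * |κ t₁| + B₀ / 4 + 1 + B₀ + 1) := ⟨_, rfl⟩
  have hB₁0 : 0 ≤ B₁ := by
    rw [hB₁]
    positivity
  have hκ₁b : ∀ t, 0 < t → t ≤ t₁ → |κ₁ t| ≤ B₁ := by
    intro t ht htt
    rw [hB₁]
    refine (h.bd t ht (by linarith)).trans (mul_le_mul_of_nonneg_left ?_ hM0)
    have h4 := hκb t ht htt
    have h5 := hB t ht htt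
    have h6 : y t ^ 2 ≤ 1 := by
      have h7 := hy1 t ht htt
      have h8 := h.ypos t ht (by linarith)
      nlinarith
    linarith
  have hy₁b : ∀ t, 0 < t → t ≤ t₁ → |y₁ t| ≤ B₀ + 1 := by
    intro t ht htt
    have h4 := hB t ht htt
    refine abs_le_of_sq_le_sq' ?_ (by linarith) |> fun h5 => abs_le.2 h5
    nlinarith
  -- `y t ≤ (B₀ + 1) t`
  have hyb : ∀ t, 0 < t → t ≤ t₁ → y t ≤ (B₀ + 1) * t := by
    intro t ht htt
    have h4 : ∀ s ∈ Ioo 0 t, y t - (B₀ + 1) * t ≤ y s := by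
      intro s hs
      obtain ⟨c, hc, hce⟩ := exists_hasDerivAt_eq_slope y y₁ hs.2
        (fun u hu => (h.dy u (lt_of_lt_of_le hs.1 hu.1)
          (by linarith [hu.2])).continuousAt.continuousWithinAt)
        (fun u hu => h.dy u (hs.1.trans hu.1) (by linarith [hu.2]))
      have h5 := hy₁b c (hs.1.trans hc.1) (hc.2.le.trans htt)
      have h6 := le_abs_self (y₁ c)
      have h7 : 0 < t - s := by linarith [hs.2]
      have h8 : (y t - y s) / (t - s) ≤ B₀ + 1 := by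
        rw [← hce]
        linarith
      rw [div_le_iff₀ h7] at h8
      have h9 : (B₀ + 1) * (t - s) ≤ (B₀ + 1) * t :=
        mul_le_mul_of_nonneg_left (by linarith [hs.1]) (by linarith)
      linarith
    have h5 : y t - (B₀ + 1) * t ≤ 0 := by
      refine ge_of_tendsto h.lim ?_
      filter_upwards [Ioo_mem_nhdsGT ht] with s hs
      exact h4 s hs
    linarith
  -- the limit of `κ`
  have hlip : LipschitzOnWith (Real.toNNReal B₁) κ (Ioc 0 t₁) := by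
    apply LipschitzOnWith.of_dist_le_mul
    intro a ha b hb
    rw [Real.coe_toNNReal _ hB₁0, dist_eq_norm, dist_eq_norm]
    exact Convex.norm_image_sub_le_of_norm_hasDerivWithin_le (f := κ) (f' := κ₁)
      (s := Ioc 0 t₁) (C := B₁)
      (fun u hu => (h.dk u hu.1 (by linarith [hu.2])).hasDerivWithinAt)
      (fun u hu => by
        rw [Real.norm_eq_abs]
        exact hκ₁b u hu.1 hu.2) (convex_Ioc 0 t₁) hb ha
  obtain ⟨g, hg, hgκ⟩ := hlip.extend_real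
  refine ⟨t₁, B₀ + 1 + B₁, g 0, h0, htδ, by linarith, fun t ht htt => ⟨?_, ?_, ?_⟩⟩
  · linarith [hy₁b t ht htt]
  · have h4 := hyb t ht htt
    have h5 : 0 ≤ B₁ * t := by positivity
    calc y t ≤ (B₀ + 1) * t := h4
      _ ≤ (B₀ + 1 + B₁) * t := by linarith
  · rw [hgκ ⟨ht, htt⟩]
    have h4 := hg.dist_le_mul t 0
    rw [Real.coe_toNNReal _ hB₁0, Real.dist_eq, Real.dist_eq, sub_zero, abs_of_pos ht] at h4
    have h5 : 0 ≤ (B₀ + 1) * t := by positivity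
    calc |g t - g 0| ≤ B₁ * t := h4
      _ ≤ (B₀ + 1 + B₁) * t := by linarith

end Pool.Agent.H196.GX5
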